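import Mathlib
import Pool.Agent.H10.GammaG

set_option autoImplicit false

namespace Pool.Agent.Results.MP_b9dfd5_co.TwoCycle

/-- Every vertex outside `S` has a neighbour in `S`. -/
def Dominating {V : Type} (G : SimpleGraph V) (S : Finset V) : Prop :=
  ∀ v, v ∉ S → ∃ u ∈ S, G.Adj u v

/-- A dominating set of minimum size. -/
def IsGammaSet {V : Type} (G : SimpleGraph V) (S : Finset V) : Prop :=
  Dominating G S ∧ ∀ T, Dominating G T → S.card ≤ T.card

/-- `T` arises from `S` by sliding one token along an edge. -/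
def Slide {V : Type} [DecidableEq V] (G : SimpleGraph V) (S T : Finset V) : Prop :=
  S ≠ T ∧ ∃ v₁ ∈ S, ∃ v₂ ∈ T, G.Adj v₁ v₂ ∧ T = insert v₂ (S.erase v₁)

theorem slide_notMem {V : Type} [DecidableEq V] {G : SimpleGraph V} {S T : Finset V}
    (hc : S.card ≤ T.card) {v₁ v₂ : V} (h1 : v₁ ∈ S) (ha : G.Adj v₁ v₂)
    (hT : T = insert v₂ (S.erase v₁)) : v₂ ∉ S := by
  intro h
  rw [Finset.insert_eq_of_mem (Finset.mem_erase.2 ⟨ha.ne.symm, h⟩)] at hT
  have := Finset.card_erase_lt_of_mem h1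
  rw [← hT] at this
  omega

/-- The gamma-graph. -/
def gammaGraph {V : Type} [DecidableEq V] (G : SimpleGraph V) :
    SimpleGraph {S : Finset V // IsGammaSet G S} where
  Adj S T := Slide G S.1 T.1
  symm := ⟨by
    rintro ⟨S, hS⟩ ⟨T, hT⟩ ⟨hne, v₁, h1, v₂, h2, ha, he⟩
    have hn := slide_notMem (hS.2 T hT.1) h1 ha he
    refine ⟨hne.symm, v₂, h2, v₁, h1, ha.symm, ?_⟩
    show S = insert v₁ (T.erase v₂)
    have he' : T = insert v₂ (S.erase v₁) := he
    rw [he', Finset.erase_insert (fun h => hn (Finset.mem_of_mem_erase h)), Finset.insert_erase h1]⟩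
  loopless := ⟨fun _ h => h.1 rfl⟩

theorem iso_of_step {G H : SimpleGraph (Fin 12)} (h : H10.GammaG.Step G H) :
    Nonempty (gammaGraph G ≃g H) := by
  obtain ⟨e, he⟩ := h
  have hd : ∀ S, Dominating G S ↔ ∀ v, v ∈ S ∨ ∃ u ∈ S, G.Adj u v := by
    intro S
    refine forall_congr' fun v => ?_
    tauto
  have hiff : ∀ S : Finset (Fin 12), ((∀ v, v ∈ S ∨ ∃ u ∈ S, G.Adj u v) ∧
      ∀ T : Finset (Fin 12), (∀ v, v ∈ T ∨ ∃ u ∈ T, G.Adj u v) → S.card ≤ T.card) ↔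
      IsGammaSet G S := by
    intro S
    simp only [IsGammaSet, hd]
  refine ⟨SimpleGraph.Iso.symm ⟨e.trans (Equiv.subtypeEquivRight hiff), ?_⟩⟩
  intro a b
  rw [he]
  show Slide G (e a).1 (e b).1 ↔ _
  constructor
  · rintro ⟨_, v₁, h1, v₂, _, ha, hT⟩
    exact ⟨v₁, v₂, h1, slide_notMem ((e a).2.2 _ (e b).2.1) h1 ha hT, ha, hT⟩
  · rintro ⟨u, v, hu, hv, ha, hT⟩
    have hv' : v ∈ (e b).1 := by rw [hT]; exact Finset.mem_insert_self _ _
    exact ⟨fun h => hv (h ▸ hv'), u, hu, v, hv', ha, hT⟩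

theorem result : ∃ (n m : ℕ) (G : SimpleGraph (Fin n)) (H : SimpleGraph (Fin m)),
    IsEmpty (G ≃g H) ∧ Nonempty (gammaGraph G ≃g H) ∧ Nonempty (gammaGraph H ≃g G) :=
  ⟨12, 12, _, _, H10.GammaG.not_iso, iso_of_step H10.GammaG.stepAB, iso_of_step H10.GammaG.stepBA⟩

end Pool.Agent.Results.MP_b9dfd5_co.TwoCycle
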